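import Pool.Agent.X328.TAU.Stm2

set_option autoImplicit false

namespace Pool.Agent.X170.TAU

open Finset Polynomial
open Pool.Agent.X328.GN (Ix nu de hm it wrA)
open Pool.Agent.X328.TAU (Q2 la S_QI)

universe u

section
variable {A : Type*} [CommRing A]

theorem de_deg (d : ℕ) (t : Ix d → A) : (de d t).natDegree ≤ d - 1 := by
  unfold de
  refine (natDegree_add_le _ _).trans (max_le (by rw [natDegree_C]; exact Nat.zero_le _) ?_)
  refine natDegree_sum_le_of_forall_le _ _ (fun i _ => ?_)
  refine (natDegree_C_mul_X_pow_le _ _).trans ?_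
  have := i.2
  omega

theorem nu_deg (d : ℕ) (hd : 1 ≤ d) (t : Ix d → A) : (nu d t).natDegree ≤ d := by
  unfold nu
  refine (natDegree_add_le _ _).trans (max_le (natDegree_X_pow_le _) ?_)
  refine natDegree_sum_le_of_forall_le _ _ (fun i _ => ?_)
  refine (natDegree_C_mul_X_pow_le _ _).trans ?_
  have := i.2
  omega

theorem nu_coeff (d : ℕ) (t : Ix d → A) : (nu d t).coeff d = 1 := by
  unfold nu
  rw [coeff_add, finsetSum_coeff, coeff_X_pow, if_pos rfl, Finset.sum_eq_zero, add_zero]
  intro i _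
  rw [coeff_C_mul_X_pow, if_neg (by have := i.2; omega)]

theorem de_coeff (d : ℕ) (hd : 2 ≤ d) (t : Ix d → A) : (de d t).coeff (d - 1) = la d hd t := by
  unfold de la
  rw [coeff_add, finsetSum_coeff, coeff_C, if_neg (by omega), zero_add,
    Finset.sum_eq_single (⟨d - 2, by omega⟩ : Fin (d - 1))]
  · rw [coeff_C_mul_X_pow, if_pos (by simp only; omega)]
  · intro i _ hi
    rw [coeff_C_mul_X_pow, if_neg]
    intro h
    apply hi
    apply Fin.ext
    simp only
    omega
  · intro h; exact absurd (Finset.mem_univ _) h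

theorem hm_X (d : ℕ) (F : A[X]) (hF : F.natDegree ≤ d) : hm d F X 1 = F := by
  unfold hm
  conv_rhs => rw [F.as_sum_range_C_mul_X_pow' (n := d + 1) (by omega)]
  apply Finset.sum_congr rfl
  intro i _
  rw [one_pow, mul_one]

theorem Q2_eq (d : ℕ) (hd : 2 ≤ d) (t : Ix d → A) :
    Q2 d t = ∑ i ∈ range (d + 1), C ((de d t).coeff i) * (nu d t) ^ i * (de d t) ^ (d - i) := by
  have h1 : it d (nu d t) (de d t) 1 = (nu d t, de d t) := by
    show (hm d (nu d t) X 1, hm d (de d t) X 1) = _
    rw [hm_X d _ (nu_deg d (by omega) t), hm_X d _ ((de_deg d t).trans (by omega))]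
  show hm d (de d t) (it d (nu d t) (de d t) 1).1 (it d (nu d t) (de d t) 1).2 = _
  rw [h1]
  rfl

theorem Q2_coeff (d : ℕ) (hd : 2 ≤ d) (t : Ix d → A) :
    (Q2 d t).coeff (d ^ 2 - 1) = la d hd t ^ 2 := by
  rw [Q2_eq d hd, finsetSum_coeff, Finset.sum_eq_single (d - 1)]
  · have e1 : d - (d - 1) = 1 := by omega
    have e2 : d ^ 2 - 1 = (0 + (d - 1) * d) + (d - 1) := by
      obtain ⟨k, rfl⟩ : ∃ k, d = k + 1 := ⟨d - 1, by omega⟩
      have : (k + 1) ^ 2 = k * (k + 1) + k + 1 := by ring
      simp only [Nat.add_sub_cancel]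
      omega
    rw [e1, pow_one, e2]
    have h1 : (C ((de d t).coeff (d - 1)) * nu d t ^ (d - 1)).natDegree ≤ 0 + (d - 1) * d := by
      refine (natDegree_mul_le).trans (Nat.add_le_add (by rw [natDegree_C]) ?_)
      exact (natDegree_pow_le).trans (Nat.mul_le_mul_left _ (nu_deg d (by omega) t))
    rw [coeff_mul_add_eq_of_natDegree_le h1 (de_deg d t), zero_add, coeff_C_mul,
      coeff_pow_of_natDegree_le (nu_deg d (by omega) t), nu_coeff, one_pow, mul_one,
      de_coeff d hd, sq]
  · intro i hi hne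
    rw [Finset.mem_range] at hi
    by_cases hid : i = d
    · subst hid
      rw [coeff_eq_zero_of_natDegree_lt (lt_of_le_of_lt (de_deg i t) (by omega))]
      simp
    · apply coeff_eq_zero_of_natDegree_lt
      have h1 : (C ((de d t).coeff i) * nu d t ^ i * de d t ^ (d - i)).natDegree
          ≤ (0 + i * d) + (d - i) * (d - 1) := by
        refine (natDegree_mul_le).trans (Nat.add_le_add ?_ ?_)
        · refine (natDegree_mul_le).trans (Nat.add_le_add (by rw [natDegree_C]) ?_)
          exact (natDegree_pow_le).trans (Nat.mul_le_mul_left _ (nu_deg d (by omega) t))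
        · exact (natDegree_pow_le).trans (Nat.mul_le_mul_left _ (de_deg d t))
      refine lt_of_le_of_lt h1 ?_
      obtain ⟨k, rfl⟩ : ∃ k, d = i + k + 2 := ⟨d - i - 2, by omega⟩
      have e3 : i + k + 2 - i = k + 2 := by omega
      have e4 : i + k + 2 - 1 = i + k + 1 := by omega
      rw [e3, e4]
      have e5 : (i + k + 2) ^ 2 = (0 + i * (i + k + 2)) + (k + 2) * (i + k + 1) + (k + 2) := by ring
      omega
  · intro h
    exfalso; apply h; rw [Finset.mem_range]; omega
end

theorem t_QI : S_QI.{u} := by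
  intro K _ d hd κ
  exact ⟨Q2_coeff d hd κ, de_coeff d hd κ⟩

end Pool.Agent.X170.TAU
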